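import Mathlib
import Pool.Agent.X322.Go1

/-!
# The sliding-window Golomb equation has non-affine monotone solutions for `r = 4`
-/

set_option autoImplicit false

namespace Pool.Agent.Results.MP_39cb5d_an.NonAffine

/-- `φ` is a solution of the sliding-window equation with window `r` -/
def IsSolution (r : ℕ) (φ : ℝ → ℝ) : Prop :=
  Continuous φ ∧ Monotone φ ∧ ∀ x, φ (∑ j ∈ Finset.range r, φ (x - j)) = x

/-- the affine solution -/
noncomputable def affineSol (r : ℕ) (x : ℝ) : ℝ := x / Real.sqrt r + (Real.sqrt r - 1) / 2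

theorem result : ∃ φ : ℝ → ℝ, IsSolution 4 φ ∧ φ ≠ affineSol 4 := by
  refine ⟨X322.Go.ph, ⟨X322.Go.ph_cont, X322.Go.ph_strict.monotone, X322.Go.ph_sum⟩,
    fun h1 => ?_⟩
  obtain ⟨h2, h3⟩ := X322.Go.ph_ne
  rw [h1] at h2 h3
  have hs : Real.sqrt ((4 : ℕ) : ℝ) = 2 := by
    rw [show ((4 : ℕ) : ℝ) = 2 ^ 2 by norm_num]
    exact Real.sqrt_sq (by norm_num)
  unfold affineSol at h2 h3
  rw [hs] at h2 h3
  linarith

end Pool.Agent.Results.MP_39cb5d_an.NonAffine
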